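import Pool.Agent.TH734.JG.Data

set_option autoImplicit false
set_option linter.unusedSectionVars false

namespace Pool.Agent.TH734.JG

/-- edge `e` leaves the set `S` -/
def crosses (S : Set VV) (e : EE) : Prop :=
  (src e ∈ S ∧ tgt e ∉ S) ∨ (src e ∉ S ∧ tgt e ∈ S)

theorem step_cases (u v : VV) (n : ℕ) (h : step u n = some v) :
    (src (dec n) = u ∧ tgt (dec n) = v) ∨ (tgt (dec n) = u ∧ src (dec n) = v) := by
  unfold step at h
  split_ifs at h with h1 h2
  · left; exact ⟨h1, by simpa using h⟩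
  · right; exact ⟨h2, by simpa using h⟩

theorem walk_cross (S : Set VV) : ∀ (L : List ℕ) (u v : VV), walk u L = some v → u ∉ S → v ∈ S →
    ∃ n ∈ L, crosses S (dec n) := by
  intro L
  induction L with
  | nil =>
    intro u v h hu hv
    simp only [walk, Option.some.injEq] at h
    subst h
    exact absurd hv hu
  | cons n L ih =>
    intro u v h hu hv
    rw [walk] at h
    cases hst : step u n with
    | none => rw [hst] at h; simp at h
    | some w =>
      rw [hst] at h
      simp only at h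
      by_cases hw : w ∈ S
      · refine ⟨n, List.mem_cons_self, ?_⟩
        rcases step_cases u w n hst with ⟨h1, h2⟩ | ⟨h1, h2⟩
        · right; rw [h1, h2]; exact ⟨hu, hw⟩
        · left; rw [h1, h2]; exact ⟨hw, hu⟩
      · obtain ⟨k, hk, hc⟩ := ih w v h hw hv
        exact ⟨k, List.mem_cons_of_mem _ hk, hc⟩

theorem exists_inj_of_lists (p : ℕ → Prop) : ∀ (Ls : List (List ℕ)), Ls.flatten.Nodup →
    (∀ L ∈ Ls, ∃ n ∈ L, p n) → ∃ g : Fin Ls.length → ℕ, Function.Injective g ∧
      ∀ k, p (g k) ∧ g k ∈ Ls.flatten := by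
  intro Ls hnd h
  have h1 : ∀ k : Fin Ls.length, ∃ n ∈ Ls.get k, p n := fun k => h _ (List.get_mem Ls k)
  choose g hg1 hg2 using h1
  rw [List.nodup_flatten] at hnd
  refine ⟨g, ?_, fun k => ⟨hg2 k, List.mem_flatten.2 ⟨_, List.get_mem Ls k, hg1 k⟩⟩⟩
  intro a b hab
  by_contra hne
  have hpw := hnd.2
  rw [List.pairwise_iff_get] at hpw
  rcases lt_or_gt_of_ne hne with hlt | hlt
  · have := hpw a b hlt
    exact this (hg1 a) (hab ▸ hg1 b)
  · have := hpw b a hlt
    exact this (hg1 b) (hab ▸ hg1 a)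

theorem conn0 (S : Set VV) (j : Fin 25) (h0 : none ∉ S) (hj : some (0, j) ∈ S) :
    ∃ g : Fin 8 → EE, Function.Injective g ∧ ∀ k, crosses S (g k) := by
  have hc := chk_all j
  unfold chk at hc
  simp only [Bool.and_eq_true, decide_eq_true_eq, List.all_eq_true] at hc
  obtain ⟨⟨⟨hlen, hwalk⟩, hnd⟩, hlt⟩ := hc
  obtain ⟨g, hg, hgp⟩ := exists_inj_of_lists (fun n => crosses S (dec n)) _ hnd
    (fun L hL => walk_cross S L none (some (0, j)) (hwalk L hL) h0 hj)
  have hcast : Fin 8 → Fin ((paths.getD j.val []).length) := Fin.cast hlen.symm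
  refine ⟨fun k => dec (g (Fin.cast hlen.symm k)), ?_, fun k => (hgp _).1⟩
  intro a b hab
  have h1 := enc_dec ⟨g (Fin.cast hlen.symm a), hlt _ (hgp _).2⟩
  have h2 := enc_dec ⟨g (Fin.cast hlen.symm b), hlt _ (hgp _).2⟩
  simp only at h1 h2 hab
  rw [hab, h2] at h1
  have := hg h1
  exact (Fin.cast_injective _ this).symm

/-- rotation of vertices -/
def rot (c : Fin 9) : VV → VV := Option.map (fun p => (p.1 + c, p.2))
/-- rotation of edges -/
def rotE (c : Fin 9) (e : EE) : EE := (e.1 + c, e.2)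

theorem src_rot (c : Fin 9) (e : EE) : src (rotE c e) = rot c (src e) := by
  rcases e with ⟨a, i | i | i | i | i⟩ <;> rfl

theorem tgt_rot (c : Fin 9) (e : EE) : tgt (rotE c e) = rot c (tgt e) := by
  rcases e with ⟨a, i | i | i | i | i⟩
  · rfl
  · rfl
  · rfl
  · simp only [rotE, tgt, rot, Option.map]
    rw [add_right_comm]
  · rfl

theorem rotE_inj (c : Fin 9) : Function.Injective (rotE c) := by
  rintro ⟨a, i⟩ ⟨b, k⟩ h
  simp only [rotE, Prod.mk.injEq, add_left_inj] at h
  exact Prod.ext h.1 h.2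

theorem conn1 (S : Set VV) (h0 : none ∉ S) (hS : S.Nonempty) :
    ∃ g : Fin 8 → EE, Function.Injective g ∧ ∀ k, crosses S (g k) := by
  obtain ⟨v, hv⟩ := hS
  rcases v with _ | ⟨c, j⟩
  · exact absurd hv h0
  obtain ⟨g, hg, hgc⟩ := conn0 (rot c ⁻¹' S) j h0 (by
    simp only [Set.mem_preimage, rot, Option.map, zero_add]
    exact hv)
  refine ⟨fun k => rotE c (g k), fun a b hab => hg (rotE_inj c hab), fun k => ?_⟩
  have := hgc k
  unfold crosses at this ⊢
  rw [src_rot, tgt_rot]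
  exact this

theorem conn (S : Set VV) (hS : S.Nonempty) (hS' : Sᶜ.Nonempty) :
    8 ≤ Nat.card {e : EE // (src e ∈ S ∧ tgt e ∉ S) ∨ (src e ∉ S ∧ tgt e ∈ S)} := by
  have h : ∃ g : Fin 8 → EE, Function.Injective g ∧ ∀ k, crosses S (g k) := by
    by_cases h0 : (none : VV) ∈ S
    · obtain ⟨g, hg, hgc⟩ := conn1 Sᶜ (fun h => h h0) hS'
      refine ⟨g, hg, fun k => ?_⟩
      have := hgc k
      unfold crosses at this ⊢
      simp only [Set.mem_compl_iff, not_not] at this
      tauto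
    · exact conn1 S h0 hS
  obtain ⟨g, hg, hgc⟩ := h
  have h1 : Nat.card (Fin 8)
      ≤ Nat.card {e : EE // (src e ∈ S ∧ tgt e ∉ S) ∨ (src e ∉ S ∧ tgt e ∈ S)} := by
    refine Nat.card_le_card_of_injective (fun k => ⟨g k, hgc k⟩) ?_
    intro a b hab
    exact hg (congrArg Subtype.val hab)
  simpa using h1

end Pool.Agent.TH734.JG
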