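import Pool.Agent.TH734.JG.Graph

set_option autoImplicit false
set_option linter.unusedSectionVars false

namespace Pool.Agent.TH734.JG

open Finset

/-- net value at a vertex of copy `c` -/
def netv (b : EE → ℤ) (v : VV) : ℤ :=
  (∑ e ∈ univ.filter (fun e => src e = v), b e) - ∑ e ∈ univ.filter (fun e => tgt e = v), b e

/-- legs of copy `c` -/
def legv (b : EE → ℤ) (c : Fin 9) (j : Fin 25) : ℤ :=
  (∑ k : Fin 4, if (1 : Fin 25) = j then b (c, .inr (.inr (.inr (.inl k)))) else 0)
  + (∑ k : Unit, if (8 : Fin 25) = j then b (c, .inr (.inr (.inr (.inr k)))) else 0)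
  - ∑ k : Fin 4, if oc k = j then b (c - 1, .inr (.inr (.inr (.inl k)))) else 0

theorem ite_sub_sum {n : ℕ} (x : Fin n → ℤ) {α : Type} [DecidableEq α] (p q : Fin n → α) (a : α) :
    (∑ i, if p i = a then x i else 0) - (∑ i, if q i = a then x i else 0)
      = ∑ i, x i * ((if p i = a then 1 else 0) - (if q i = a then 1 else 0)) := by
  rw [← Finset.sum_sub_distrib]
  refine Finset.sum_congr rfl (fun i _ => ?_)
  by_cases h1 : p i = a <;> by_cases h2 : q i = a <;> simp [h1, h2]

theorem net_eq (b : EE → ℤ) (c : Fin 9) (j : Fin 25) :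
    netv b (some (c, j))
      = ((∑ i : Fin 31, if e9 (bs i) = j then b (c, .inl i) else 0)
          - (∑ i : Fin 31, if e9 (bt i) = j then b (c, .inl i) else 0))
      + ((∑ i : Fin 31, if e17 (bs i) = j then b (c, .inr (.inl i)) else 0)
          - (∑ i : Fin 31, if e17 (bt i) = j then b (c, .inr (.inl i)) else 0))
      + (onet (fun i => b (c, .inr (.inr (.inl i)))) j + legv b c j) := by
  unfold netv onet legv
  rw [sum_src, sum_tgt, ← ite_sub_sum]
  ring

theorem e9_inj (a a' : Fin 8) : e9 a = e9 a' ↔ a = a' := by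
  constructor
  · intro h
    have := congrArg Fin.val h
    simp only [e9] at this
    exact Fin.ext (by omega)
  · rintro rfl; rfl

theorem e17_inj (a a' : Fin 8) : e17 a = e17 a' ↔ a = a' := by
  constructor
  · intro h
    have := congrArg Fin.val h
    simp only [e17] at this
    exact Fin.ext (by omega)
  · rintro rfl; rfl

theorem e9_ne_e17 (a a' : Fin 8) : e9 a ≠ e17 a' := by
  intro h
  have := congrArg Fin.val h
  simp only [e9, e17] at this
  omega

theorem e9_ne (a : Fin 8) (j : Fin 25) (h : j.val < 9) : e9 a ≠ j := by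
  intro h'
  have := congrArg Fin.val h'
  simp only [e9] at this
  omega

theorem e17_ne (a : Fin 8) (j : Fin 25) (h : j.val < 9) : e17 a ≠ j := by
  intro h'
  have := congrArg Fin.val h'
  simp only [e17] at this
  omega

theorem net_single (b : EE → ℤ) (c : Fin 9) (j : Fin 25) (h : j.val < 9) :
    netv b (some (c, j)) = onet (fun i => b (c, .inr (.inr (.inl i)))) j + legv b c j := by
  rw [net_eq]
  simp [e9_ne _ j h, e17_ne _ j h]

theorem net_b1 (b : EE → ℤ) (c : Fin 9) (j : Fin 8) :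
    netv b (some (c, e9 j)) = bnet (fun i => b (c, .inl i)) j
      + (onet (fun i => b (c, .inr (.inr (.inl i)))) (e9 j) + legv b c (e9 j)) := by
  rw [net_eq]
  simp only [e9_inj, fun a => (e9_ne_e17 j a).symm, if_false, Finset.sum_const_zero, sub_zero,
    add_zero]
  rw [ite_sub_sum]
  rfl

theorem net_b2 (b : EE → ℤ) (c : Fin 9) (j : Fin 8) :
    netv b (some (c, e17 j)) = bnet (fun i => b (c, .inr (.inl i))) j
      + (onet (fun i => b (c, .inr (.inr (.inl i)))) (e17 j) + legv b c (e17 j)) := by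
  rw [net_eq]
  simp only [e17_inj, fun a => (e9_ne_e17 a j), if_false, Finset.sum_const_zero, sub_zero,
    zero_add]
  rw [ite_sub_sum]
  rfl

/-- total flow on the parallel legs -/
def Lc (b : EE → ℤ) (c : Fin 9) : ℤ := ∑ k : Fin 4, b (c, .inr (.inr (.inr (.inl k))))
/-- spoke -/
def rc (b : EE → ℤ) (c : Fin 9) : ℤ := b (c, .inr (.inr (.inr (.inr ()))))

theorem total (b : EE → ℤ) (c : Fin 9) :
    ∑ j : Fin 25, netv b (some (c, j)) = Lc b c - Lc b (c - 1) + rc b c := by
  have hs : ∀ {ι : Type} [Fintype ι] (u : ι → Fin 25) (F : ι → ℤ),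
      ∑ j : Fin 25, ∑ i : ι, (if u i = j then F i else 0) = ∑ i, F i := by
    intro ι _ u F
    rw [Finset.sum_comm]
    refine Finset.sum_congr rfl (fun i _ => ?_)
    rw [Finset.sum_ite_eq]
    simp
  unfold netv
  rw [Finset.sum_sub_distrib]
  simp only [sum_src, sum_tgt, Finset.sum_add_distrib]
  rw [hs, hs, hs, hs (fun _ => (1 : Fin 25)), hs (fun _ => (8 : Fin 25)), hs, hs, hs, hs]
  unfold Lc rc
  simp
  ring

theorem bnet_neg (x : Fin 31 → ℤ) (j : Fin 8) : bnet (fun i => -x i) j = -bnet x j := by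
  unfold bnet
  rw [← Finset.sum_neg_distrib]
  exact Finset.sum_congr rfl (fun i _ => by ring)

theorem no_pos (b : EE → ℤ) (hb : ∀ e, b e = 1 ∨ b e = -1)
    (hn : ∀ v, netv b v = 5 ∨ netv b v = -5) (c : Fin 9)
    (h1 : Lc b c = 0) (h2 : ∀ k, b (c - 1, .inr (.inr (.inr (.inl k)))) = -1)
    (h3 : rc b c = 1) : False := by
  have hleg : legv b c
      = ![0, 0, 0, 0, 0, 1, 1, 1, 1, 0, 0, 0, 0, 0, 0, 0, 0, 0, 0, 0, 1, 0, 0, 0, 0] := by
    funext j
    have e1 : (∑ k : Fin 4, if (1 : Fin 25) = j then b (c, .inr (.inr (.inr (.inl k)))) else 0) = 0 := by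
      by_cases hj : (1 : Fin 25) = j
      · simp only [hj, if_true]; exact h1
      · simp [hj]
    have e2 : (∑ k : Unit, if (8 : Fin 25) = j then b (c, .inr (.inr (.inr (.inr k)))) else 0)
        = if (8 : Fin 25) = j then 1 else 0 := by
      by_cases hj : (8 : Fin 25) = j
      · simp only [hj, if_true]
        simpa [rc] using h3
      · simp [hj]
    have e3 : (∑ k : Fin 4, if oc k = j then b (c - 1, .inr (.inr (.inr (.inl k)))) else 0)
        = ∑ k : Fin 4, if oc k = j then -1 else 0 := by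
      simp only [h2]
    unfold legv
    rw [e1, e2, e3]
    clear e1 e2 e3
    revert j
    decide
  refine copy_pos (fun i => b (c, .inl i)) (fun i => b (c, .inr (.inl i)))
    (fun i => b (c, .inr (.inr (.inl i)))) (fun i => hb _) (fun i => hb _) (fun i => hb _)
    (legv b c) hleg ?_ ?_ ?_
  · intro j hj
    have := hn (some (c, j))
    rwa [net_single b c j hj] at this
  · intro j
    have := hn (some (c, e9 j))
    rwa [net_b1] at this
  · intro j
    have := hn (some (c, e17 j))
    rwa [net_b2] at this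

theorem netv_neg (b : EE → ℤ) (v : VV) : netv (fun e => -b e) v = -netv b v := by
  unfold netv
  rw [Finset.sum_neg_distrib, Finset.sum_neg_distrib]; ring

theorem four_neg (q : Fin 4 → ℤ) (hq : ∀ k, q k = 1 ∨ q k = -1) (h : ∑ k, q k = -4) :
    ∀ k, q k = -1 := by
  rw [Fin.sum_univ_four] at h
  have h0 := hq 0
  have h1 := hq 1
  have h2 := hq 2
  have h3 := hq 3
  intro k
  fin_cases k
  · change q 0 = -1; omega
  · change q 1 = -1; omega
  · change q 2 = -1; omega
  · change q 3 = -1; omega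

theorem Lc_vals (b : EE → ℤ) (hb : ∀ e, b e = 1 ∨ b e = -1) (c : Fin 9) :
    Lc b c = -4 ∨ Lc b c = -2 ∨ Lc b c = 0 ∨ Lc b c = 2 ∨ Lc b c = 4 := by
  unfold Lc
  rw [Fin.sum_univ_four]
  have h0 := hb (c, .inr (.inr (.inr (.inl 0))))
  have h1 := hb (c, .inr (.inr (.inr (.inl 1))))
  have h2 := hb (c, .inr (.inr (.inr (.inl 2))))
  have h3 := hb (c, .inr (.inr (.inr (.inl 3))))
  omega

theorem Tc_vals (b : EE → ℤ) (hb : ∀ e, b e = 1 ∨ b e = -1)
    (hn : ∀ v, netv b v = 5 ∨ netv b v = -5) (c : Fin 9) :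
    Lc b c - Lc b (c - 1) + rc b c = 5 ∨ Lc b c - Lc b (c - 1) + rc b c = -5 := by
  have h1 := total b c
  have h2 : ∃ k : ℤ, ∑ j : Fin 25, netv b (some (c, j)) = 10 * k + 125 := by
    have h3 : ∀ A : Finset (Fin 25), ∃ k : ℤ,
        ∑ j ∈ A, netv b (some (c, j)) = 10 * k + 5 * A.card := by
      intro A
      induction A using Finset.induction_on with
      | empty => exact ⟨0, by simp⟩
      | insert a A ha ih =>
        obtain ⟨k, hk⟩ := ih
        rw [Finset.sum_insert ha, Finset.card_insert_of_notMem ha, hk]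
        rcases hn (some (c, a)) with h | h
        · exact ⟨k, by rw [h]; push_cast; ring⟩
        · exact ⟨k - 1, by rw [h]; push_cast; ring⟩
    obtain ⟨k, hk⟩ := h3 univ
    exact ⟨k, by rw [hk]; simp⟩
  obtain ⟨k, hk⟩ := h2
  rw [h1] at hk
  have h4 := Lc_vals b hb c
  have h5 := Lc_vals b hb (c - 1)
  have h6 : rc b c = 1 ∨ rc b c = -1 := hb _
  omega

theorem step_pos (b : EE → ℤ) (hb : ∀ e, b e = 1 ∨ b e = -1)
    (hn : ∀ v, netv b v = 5 ∨ netv b v = -5) (c : Fin 9)
    (h : Lc b c - Lc b (c - 1) + rc b c = 5) : 2 ≤ Lc b c := by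
  by_contra hlt
  have h4 := Lc_vals b hb c
  have h5 := Lc_vals b hb (c - 1)
  have h6 : rc b c = 1 ∨ rc b c = -1 := hb _
  have a1 : Lc b c = 0 := by omega
  have a2 : Lc b (c - 1) = -4 := by omega
  have a3 : rc b c = 1 := by omega
  exact no_pos b hb hn c a1 (four_neg _ (fun k => hb _) a2) a3

theorem step_neg (b : EE → ℤ) (hb : ∀ e, b e = 1 ∨ b e = -1)
    (hn : ∀ v, netv b v = 5 ∨ netv b v = -5) (c : Fin 9)
    (h : Lc b c - Lc b (c - 1) + rc b c = -5) : Lc b c ≤ -2 := by
  have hL : ∀ c, Lc (fun e => -b e) c = -Lc b c := by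
    intro c; unfold Lc; rw [Finset.sum_neg_distrib]
  have hr : rc (fun e => -b e) c = -rc b c := rfl
  have := step_pos (fun e => -b e) (fun e => by rcases hb e with h | h <;> simp [h])
    (fun v => by rw [netv_neg]; rcases hn v with h | h <;> simp [h]) c
    (by rw [hL, hL, hr]; omega)
  rw [hL] at this
  omega

theorem no_orient (b : EE → ℤ) (hb : ∀ e, b e = 1 ∨ b e = -1)
    (hn : ∀ v, netv b v = 5 ∨ netv b v = -5) : False := by
  have key : ∀ c c' : Fin 9, c' - 1 = c →
      (Lc b c - Lc b (c - 1) + rc b c = 5 → Lc b c' - Lc b (c' - 1) + rc b c' = -5) ∧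
      (Lc b c - Lc b (c - 1) + rc b c = -5 → Lc b c' - Lc b (c' - 1) + rc b c' = 5) := by
    rintro c c' rfl
    have h4 := Lc_vals b hb c'
    have h6 : rc b c' = 1 ∨ rc b c' = -1 := hb _
    have h7 := Tc_vals b hb hn c'
    constructor
    · intro h
      have := step_pos b hb hn _ h
      omega
    · intro h
      have := step_neg b hb hn _ h
      omega
  have k0 := key 0 1 (by decide)
  have k1 := key 1 2 (by decide)
  have k2 := key 2 3 (by decide)
  have k3 := key 3 4 (by decide)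
  have k4 := key 4 5 (by decide)
  have k5 := key 5 6 (by decide)
  have k6 := key 6 7 (by decide)
  have k7 := key 7 8 (by decide)
  have k8 := key 8 0 (by decide)
  rcases Tc_vals b hb hn 0 with h | h
  · have := k8.1 (k7.2 (k6.1 (k5.2 (k4.1 (k3.2 (k2.1 (k1.2 (k0.1 h))))))))
    rw [h] at this
    norm_num at this
  · have := k8.2 (k7.1 (k6.2 (k5.1 (k4.2 (k3.1 (k2.2 (k1.1 (k0.2 h))))))))
    rw [h] at this
    norm_num at this

/-- The graph has no circular 5/2-flow. -/
theorem no_flow (f : EE → ℝ) (hf : ∀ e, 1 ≤ |f e| ∧ |f e| ≤ 3 / 2)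
    (hc : ∀ v : VV, (∑ e ∈ univ.filter (fun e => tgt e = v), f e)
                 = ∑ e ∈ univ.filter (fun e => src e = v), f e) : False := by
  obtain ⟨b, hb, hn⟩ := exists_orient src tgt loopless degree9 f hf hc
  exact no_orient b hb hn

end Pool.Agent.TH734.JG
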