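import Pool.Agent.TH734.JG.Copy

set_option autoImplicit false

namespace Pool.Agent.TH734.JG

open Finset

/-- Left part, as a finite check. -/
theorem left_fin : ∀ (e b u w : Fin 2) (P Q : Fin 5),
    (2 * (e : ℕ) + 2 * b + 2 * P + 2 * Q) % 10 = 0 →
    ¬ ((e : ℕ) + b = 1 ∧ (P : ℕ) = 4 ∧ (Q : ℕ) = 0) →
    ¬ ((e : ℕ) + b = 1 ∧ (P : ℕ) = 0 ∧ (Q : ℕ) = 4) →
    ∀ R : Fin 3, ((2 - 2 * (e : ℕ)) + (1 - u) + Q + R = 7 ∨ (2 - 2 * (e : ℕ)) + (1 - u) + Q + R = 2) →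
    ∀ A : Fin 3, ((2 - (A : ℕ)) + (1 - e) + P + u + w = 7 ∨ (2 - (A : ℕ)) + (1 - e) + P + u + w = 2) →
    ∀ (Bt : Fin 4) (D : Fin 3), ((3 - (Bt : ℕ)) + (1 - e) + (2 - R) + b + D = 7 ∨
      (3 - (Bt : ℕ)) + (1 - e) + (2 - R) + b + D = 2) →
    (A : ℕ) = 2 - 2 * w := by
  decide +kernel

/-- Right part, as a finite check. -/
theorem right_fin : ∀ (A : Fin 3) (Bt : Fin 4) (c : Fin 2) (S : Fin 3) (k : Fin 2),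
    ((A : ℕ) + Bt + c + S + k = 7 ∨ (A : ℕ) + Bt + c + S + k = 2) →
    ∀ (M : Fin 6) (U : Fin 3), ((1 - (c : ℕ)) + M + U + 1 = 7 ∨ (1 - (c : ℕ)) + M + U + 1 = 2) →
    ∀ g : Fin 2, ((2 - (S : ℕ)) + (5 - M) + g + 1 = 7 ∨ (2 - (S : ℕ)) + (5 - M) + g + 1 = 2) →
    ∀ P Q : Fin 5, (2 * (k : ℕ) + 2 * P + 2 * Q) % 10 = 0 →
    ¬ ((k : ℕ) = 1 ∧ (P : ℕ) = 4 ∧ (Q : ℕ) = 0) →
    ¬ ((k : ℕ) = 1 ∧ (P : ℕ) = 0 ∧ (Q : ℕ) = 4) →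
    ∀ (w : Fin 2) (D : Fin 3) (r : Fin 2),
    ((1 - (w : ℕ)) + (2 - D) + P + r + 1 = 7 ∨ (1 - (w : ℕ)) + (2 - D) + P + r + 1 = 2) →
    ((2 - (U : ℕ)) + (1 - g) + (1 - r) + Q + 1 = 7 ∨ (2 - (U : ℕ)) + (1 - g) + (1 - r) + Q + 1 = 2) →
    ¬ ((A : ℕ) = 2 - 2 * w) := by
  decide +kernel

end Pool.Agent.TH734.JG
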