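import Pool.Agent.TH734.JG.Tab

set_option autoImplicit false

namespace Pool.Agent.TH734.JG

open Finset

theorem cut18 : ∀ Z : Finset (Fin 8), Z.card = 4 →
    (∑ i : Fin 31, (if (bs i ∈ Z ↔ bt i ∈ Z) then 0 else 1)) ≤ 18 := by
  decide +kernel

theorem sum_bnet (x : Fin 31 → ℤ) (Z : Finset (Fin 8)) :
    ∑ j ∈ Z, bnet x j = ∑ i, x i * ((if bs i ∈ Z then 1 else 0) - (if bt i ∈ Z then 1 else 0)) := by
  unfold bnet
  rw [Finset.sum_comm]
  refine Finset.sum_congr rfl (fun i _ => ?_)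
  rw [← Finset.mul_sum, Finset.sum_sub_distrib, Finset.sum_ite_eq, Finset.sum_ite_eq]

/-- The block cannot have all its five pairs of legs balanced. -/
theorem block_ne (x : Fin 31 → ℤ) (hx : ∀ i, x i = 1 ∨ x i = -1)
    (h : ∀ j, bnet x j = 5 ∨ bnet x j = -5) : False := by
  classical
  set Z : Finset (Fin 8) := univ.filter (fun j => bnet x j = 5) with hZ
  have h0 : ∑ j, bnet x j = 0 := by
    rw [sum_bnet]
    refine Finset.sum_eq_zero (fun i _ => ?_)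
    simp
  have h1 : ∑ j, bnet x j = ∑ j, ((if bnet x j = 5 then 10 else 0) - 5 : ℤ) := by
    refine Finset.sum_congr rfl (fun j _ => ?_)
    rcases h j with hj | hj <;> rw [hj] <;> norm_num
  have hcard : Z.card = 4 := by
    rw [h0, Finset.sum_sub_distrib, ← Finset.sum_filter, Finset.sum_const, nsmul_eq_mul, ← hZ] at h1
    simp at h1
    omega
  have h2 : ∑ j ∈ Z, bnet x j = 20 := by
    rw [Finset.sum_congr rfl (g := fun _ => (5 : ℤ)) (fun j hj => by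
      rw [hZ, Finset.mem_filter] at hj; exact hj.2), Finset.sum_const, hcard]
    norm_num
  rw [sum_bnet] at h2
  have h3 : ∑ i, x i * ((if bs i ∈ Z then 1 else 0) - (if bt i ∈ Z then 1 else 0))
      ≤ ∑ i : Fin 31, (((if (bs i ∈ Z ↔ bt i ∈ Z) then 0 else 1 : ℕ)) : ℤ) := by
    refine Finset.sum_le_sum (fun i _ => ?_)
    by_cases a : bs i ∈ Z <;> by_cases b : bt i ∈ Z <;> rcases hx i with hi | hi <;>
      simp [a, b, hi]
  have h4 := cut18 Z hcard
  have h5 : (∑ i : Fin 31, (((if (bs i ∈ Z ↔ bt i ∈ Z) then 0 else 1 : ℕ)) : ℤ)) ≤ 18 := by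
    exact_mod_cast h4
  omega

/-- The total of the legs of the block is a multiple of ten. -/
theorem block_sum (x : Fin 31 → ℤ) (l : Fin 8 → ℤ)
    (h : ∀ j, bnet x j + l j = 5 ∨ bnet x j + l j = -5) :
    (l 0 + l 1 + l 2 + l 3 + l 4 + l 5 + l 6 + l 7) % 10 = 0 := by
  have h0 : ∑ j, bnet x j = 0 := by
    rw [sum_bnet]
    refine Finset.sum_eq_zero (fun i _ => ?_)
    simp
  rw [Fin.sum_univ_eight] at h0
  have h1 : ∀ j, ∃ k : ℤ, bnet x j + l j = 10 * k + 5 := by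
    intro j
    rcases h j with hj | hj
    · exact ⟨0, by rw [hj]; norm_num⟩
    · exact ⟨-1, by rw [hj]; norm_num⟩
  obtain ⟨k0, e0⟩ := h1 0
  obtain ⟨k1, e1⟩ := h1 1
  obtain ⟨k2, e2⟩ := h1 2
  obtain ⟨k3, e3⟩ := h1 3
  obtain ⟨k4, e4⟩ := h1 4
  obtain ⟨k5, e5⟩ := h1 5
  obtain ⟨k6, e6⟩ := h1 6
  obtain ⟨k7, e7⟩ := h1 7
  omega

end Pool.Agent.TH734.JG
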