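import Mathlib

set_option autoImplicit false
set_option linter.unusedSectionVars false

namespace Pool.Agent.TH734.JG

open Finset

variable {V E : Type} [Fintype V] [DecidableEq V] [Fintype E] [DecidableEq E]

/-- Indicator of membership of the tail minus indicator of membership of the head. -/
def ind (s t : E → V) (S : Finset V) (e : E) : ℤ :=
  (if s e ∈ S then 1 else 0) - (if t e ∈ S then 1 else 0)

theorem sum_net {R : Type} [CommRing R] (s t : E → V) (F : E → R) (S : Finset V) :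
    ∑ v ∈ S, ((∑ e ∈ univ.filter (fun e => s e = v), F e)
      - ∑ e ∈ univ.filter (fun e => t e = v), F e)
      = ∑ e, F e * ((ind s t S e : ℤ) : R) := by
  have h : ∀ (u : E → V), ∑ v ∈ S, ∑ e ∈ univ.filter (fun e => u e = v), F e
      = ∑ e, if u e ∈ S then F e else 0 := by
    intro u
    have h1 : ∀ v ∈ S, ∑ e ∈ univ.filter (fun e => u e = v), F e
        = ∑ e, if u e = v then F e else 0 := fun v _ => Finset.sum_filter _ _
    rw [Finset.sum_congr rfl h1, Finset.sum_comm]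
    refine Finset.sum_congr rfl (fun e _ => ?_)
    rw [Finset.sum_ite_eq]
  rw [Finset.sum_sub_distrib, h s, h t, ← Finset.sum_sub_distrib]
  refine Finset.sum_congr rfl (fun e _ => ?_)
  unfold ind
  by_cases h1 : s e ∈ S <;> by_cases h2 : t e ∈ S <;> simp [h1, h2]

theorem ind_cases (s t : E → V) (S : Finset V) (e : E) :
    ind s t S e = 0 ∨ ind s t S e = 1 ∨ ind s t S e = -1 := by
  unfold ind
  by_cases h1 : s e ∈ S <;> by_cases h2 : t e ∈ S <;> simp [h1, h2]

/-- sign of the flow -/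
noncomputable def sg (f : E → ℝ) (e : E) : ℤ := if 0 < f e then 1 else -1

theorem sg_cases (f : E → ℝ) (e : E) : sg f e = 1 ∨ sg f e = -1 := by
  unfold sg; split_ifs <;> simp

theorem key_ineq (f : E → ℝ) (hf : ∀ e, 1 ≤ |f e| ∧ |f e| ≤ 3 / 2) (s t : E → V)
    (S : Finset V) (e : E) :
    (5 * ((sg f e : ℤ) : ℝ) * ((ind s t S e : ℤ) : ℝ) - |((ind s t S e : ℤ) : ℝ)|
      ≤ 4 * (f e * ((ind s t S e : ℤ) : ℝ))) ∧
    (-(5 * ((sg f e : ℤ) : ℝ) * ((ind s t S e : ℤ) : ℝ)) - |((ind s t S e : ℤ) : ℝ)|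
      ≤ -(4 * (f e * ((ind s t S e : ℤ) : ℝ)))) := by
  obtain ⟨h1, h2⟩ := hf e
  unfold sg
  by_cases hp : 0 < f e
  · rw [abs_of_pos hp] at h1 h2
    rcases ind_cases s t S e with h | h | h <;> rw [h] <;> simp [hp] <;> constructor <;> linarith
  · have hn : f e ≤ 0 := not_lt.mp hp
    rw [abs_of_nonpos hn] at h1 h2
    rcases ind_cases s t S e with h | h | h <;> rw [h] <;> simp [hp] <;> constructor <;> linarith

/-- net out-degree of the orientation given by the signs of the flow -/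
noncomputable def sig (s t : E → V) (f : E → ℝ) (v : V) : ℤ :=
  (∑ e ∈ univ.filter (fun e => s e = v), sg f e) - ∑ e ∈ univ.filter (fun e => t e = v), sg f e

theorem cut_ineq (f : E → ℝ) (hf : ∀ e, 1 ≤ |f e| ∧ |f e| ≤ 3 / 2) (s t : E → V)
    (hc : ∀ v : V, (∑ e ∈ univ.filter (fun e => t e = v), f e)
                 = ∑ e ∈ univ.filter (fun e => s e = v), f e)
    (S : Finset V) :
    5 * ∑ v ∈ S, sig s t f v ≤ ∑ e, |ind s t S e| ∧
    -(5 * ∑ v ∈ S, sig s t f v) ≤ ∑ e, |ind s t S e| := by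
  have h0 : ∑ e, f e * ((ind s t S e : ℤ) : ℝ) = 0 := by
    rw [← sum_net]
    refine Finset.sum_eq_zero (fun v _ => ?_)
    rw [hc v]; ring
  have hs : ∑ v ∈ S, sig s t f v = ∑ e, sg f e * ind s t S e := by
    have := sum_net (R := ℤ) s t (sg f) S
    simpa [sig] using this
  rw [hs]
  have e1 : ∑ e, (5 * ((sg f e : ℤ) : ℝ) * ((ind s t S e : ℤ) : ℝ) - |((ind s t S e : ℤ) : ℝ)|)
      ≤ ∑ e, 4 * (f e * ((ind s t S e : ℤ) : ℝ)) :=
    Finset.sum_le_sum (fun e _ => (key_ineq f hf s t S e).1)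
  have e2 : ∑ e, (-(5 * ((sg f e : ℤ) : ℝ) * ((ind s t S e : ℤ) : ℝ))
      - |((ind s t S e : ℤ) : ℝ)|)
      ≤ ∑ e, -(4 * (f e * ((ind s t S e : ℤ) : ℝ))) :=
    Finset.sum_le_sum (fun e _ => (key_ineq f hf s t S e).2)
  rw [← Finset.mul_sum, h0, Finset.sum_sub_distrib] at e1
  rw [Finset.sum_neg_distrib, ← Finset.mul_sum, h0, Finset.sum_sub_distrib,
    Finset.sum_neg_distrib] at e2
  have e3 : ∑ e, 5 * ((sg f e : ℤ) : ℝ) * ((ind s t S e : ℤ) : ℝ)
      = 5 * ∑ e, ((sg f e : ℤ) : ℝ) * ((ind s t S e : ℤ) : ℝ) := by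
    rw [Finset.mul_sum]; exact Finset.sum_congr rfl (fun e _ => by ring)
  rw [e3] at e1 e2
  constructor
  · have : ((5 * ∑ e, sg f e * ind s t S e : ℤ) : ℝ) ≤ ((∑ e, |ind s t S e| : ℤ) : ℝ) := by
      push_cast; linarith
    exact_mod_cast this
  · have : ((-(5 * ∑ e, sg f e * ind s t S e) : ℤ) : ℝ) ≤ ((∑ e, |ind s t S e| : ℤ) : ℝ) := by
      push_cast; linarith
    exact_mod_cast this

theorem sum_deg (s t : E → V) (S : Finset V)
    (hdeg : ∀ v, (univ.filter (fun e => s e = v)).card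
      + (univ.filter (fun e => t e = v)).card = 9) :
    (9 : ℤ) * S.card = ∑ e, ((if s e ∈ S then 1 else 0) + (if t e ∈ S then 1 else 0) : ℤ) := by
  have h : ∀ (u : E → V), ∑ v ∈ S, ((univ.filter (fun e => u e = v)).card : ℤ)
      = ∑ e, if u e ∈ S then 1 else 0 := by
    intro u
    have h1 : ∀ v ∈ S, ((univ.filter (fun e => u e = v)).card : ℤ)
        = ∑ e, if u e = v then 1 else 0 := by
      intro v _
      rw [Finset.sum_boole]
    rw [Finset.sum_congr rfl h1, Finset.sum_comm]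
    refine Finset.sum_congr rfl (fun e _ => ?_)
    rw [Finset.sum_ite_eq]
  rw [Finset.sum_add_distrib, ← h s, ← h t, ← Finset.sum_add_distrib]
  rw [Finset.sum_congr rfl (g := fun _ => (9 : ℤ)) (fun v _ => by exact_mod_cast hdeg v)]
  rw [Finset.sum_const, nsmul_eq_mul]; ring

theorem sig_odd (s t : E → V) (f : E → ℝ) (v : V)
    (hdeg : (univ.filter (fun e => s e = v)).card
      + (univ.filter (fun e => t e = v)).card = 9) : ∃ k : ℤ, sig s t f v = 2 * k + 1 := by
  have h : ∀ A : Finset E, ∃ k : ℤ, ∑ e ∈ A, sg f e = 2 * k + A.card := by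
    intro A
    induction A using Finset.induction_on with
    | empty => exact ⟨0, by simp⟩
    | insert a A ha ih =>
      obtain ⟨k, hk⟩ := ih
      rw [Finset.sum_insert ha, Finset.card_insert_of_notMem ha, hk]
      rcases sg_cases f a with h | h
      · exact ⟨k, by rw [h]; push_cast; ring⟩
      · exact ⟨k - 1, by rw [h]; push_cast; ring⟩
  obtain ⟨a, ha⟩ := h (univ.filter (fun e => s e = v))
  obtain ⟨b, hb⟩ := h (univ.filter (fun e => t e = v))
  unfold sig
  rw [ha, hb]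
  refine ⟨a - b - (univ.filter (fun e => t e = v)).card + 4, ?_⟩
  have : ((univ.filter (fun e => s e = v)).card : ℤ)
      + ((univ.filter (fun e => t e = v)).card : ℤ) = 9 := by exact_mod_cast hdeg
  linarith

end Pool.Agent.TH734.JG
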