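import Pool.Agent.TH734.JG.CSP

set_option autoImplicit false

namespace Pool.Agent.TH734.JG

open Finset

theorem b1 (a : ℤ) (h : a = 1 ∨ a = -1) : ∃ k : Fin 2, a = 2 * ((k : ℕ) : ℤ) - 1 := by
  rcases h with rfl | rfl
  · exact ⟨1, by norm_num⟩
  · exact ⟨0, by norm_num⟩

theorem b2 (a b : ℤ) (ha : a = 1 ∨ a = -1) (hb : b = 1 ∨ b = -1) :
    ∃ k : Fin 3, a + b = 2 * ((k : ℕ) : ℤ) - 2 := by
  obtain ⟨k, hk⟩ := b1 a ha
  obtain ⟨l, hl⟩ := b1 b hb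
  exact ⟨⟨k + l, by omega⟩, by push_cast; linarith⟩

theorem b3 (a b c : ℤ) (ha : a = 1 ∨ a = -1) (hb : b = 1 ∨ b = -1) (hc : c = 1 ∨ c = -1) :
    ∃ k : Fin 4, a + b + c = 2 * ((k : ℕ) : ℤ) - 3 := by
  obtain ⟨k, hk⟩ := b2 a b ha hb
  obtain ⟨l, hl⟩ := b1 c hc
  exact ⟨⟨k + l, by omega⟩, by push_cast; linarith⟩

theorem b4 (a b c d : ℤ) (ha : a = 1 ∨ a = -1) (hb : b = 1 ∨ b = -1) (hc : c = 1 ∨ c = -1)
    (hd : d = 1 ∨ d = -1) :
    ∃ k : Fin 5, a + b + c + d = 2 * ((k : ℕ) : ℤ) - 4 := by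
  obtain ⟨k, hk⟩ := b3 a b c ha hb hc
  obtain ⟨l, hl⟩ := b1 d hd
  exact ⟨⟨k + l, by omega⟩, by push_cast; linarith⟩

theorem b5 (a b c d e : ℤ) (ha : a = 1 ∨ a = -1) (hb : b = 1 ∨ b = -1) (hc : c = 1 ∨ c = -1)
    (hd : d = 1 ∨ d = -1) (he : e = 1 ∨ e = -1) :
    ∃ k : Fin 6, a + b + c + d + e = 2 * ((k : ℕ) : ℤ) - 5 := by
  obtain ⟨k, hk⟩ := b4 a b c d ha hb hc hd
  obtain ⟨l, hl⟩ := b1 e he
  exact ⟨⟨k + l, by omega⟩, by push_cast; linarith⟩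

theorem all_pos (a b c d : ℤ) (ha : a = 1 ∨ a = -1) (hb : b = 1 ∨ b = -1)
    (hc : c = 1 ∨ c = -1) (hd : d = 1 ∨ d = -1) (h : a + b + c + d = 4) :
    a = 1 ∧ b = 1 ∧ c = 1 ∧ d = 1 := by omega

theorem all_neg (a b c d : ℤ) (ha : a = 1 ∨ a = -1) (hb : b = 1 ∨ b = -1)
    (hc : c = 1 ∨ c = -1) (hd : d = 1 ∨ d = -1) (h : a + b + c + d = -4) :
    a = -1 ∧ b = -1 ∧ c = -1 ∧ d = -1 := by omega

/-- first block position -/
def e9 (j : Fin 8) : Fin 25 := ⟨j.val + 9, by omega⟩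
/-- second block position -/
def e17 (j : Fin 8) : Fin 25 := ⟨j.val + 17, by omega⟩

/-- The gadget: if the four parallel legs at vertex 1 are balanced, the other five legs cannot all
be directed outwards. -/
theorem copy_pos (x y : Fin 31 → ℤ) (z : Fin 46 → ℤ)
    (hx : ∀ i, x i = 1 ∨ x i = -1) (hy : ∀ i, y i = 1 ∨ y i = -1) (hz : ∀ i, z i = 1 ∨ z i = -1)
    (leg : Fin 25 → ℤ)
    (hleg : leg = ![0, 0, 0, 0, 0, 1, 1, 1, 1, 0, 0, 0, 0, 0, 0, 0, 0, 0, 0, 0, 1, 0, 0, 0, 0])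
    (Hs : ∀ j : Fin 25, j.val < 9 → onet z j + leg j = 5 ∨ onet z j + leg j = -5)
    (H1 : ∀ j : Fin 8, bnet x j + (onet z (e9 j) + leg (e9 j)) = 5 ∨
      bnet x j + (onet z (e9 j) + leg (e9 j)) = -5)
    (H2 : ∀ j : Fin 8, bnet y j + (onet z (e17 j) + leg (e17 j)) = 5 ∨
      bnet y j + (onet z (e17 j) + leg (e17 j)) = -5) : False := by
  -- values
  have L0 : leg 0 = 0 := by rw [hleg]; rfl
  have L1 : leg 1 = 0 := by rw [hleg]; rfl
  have L2 : leg 2 = 0 := by rw [hleg]; rfl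
  have L3 : leg 3 = 0 := by rw [hleg]; rfl
  have L4 : leg 4 = 0 := by rw [hleg]; rfl
  have L5 : leg 5 = 1 := by rw [hleg]; rfl
  have L6 : leg 6 = 1 := by rw [hleg]; rfl
  have L7 : leg 7 = 1 := by rw [hleg]; rfl
  have L8 : leg 8 = 1 := by rw [hleg]; rfl
  have v0 := Hs 0 (by decide)
  have v1 := Hs 1 (by decide)
  have v2 := Hs 2 (by decide)
  have v3 := Hs 3 (by decide)
  have v4 := Hs 4 (by decide)
  have v5 := Hs 5 (by decide)
  have v6 := Hs 6 (by decide)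
  have v7 := Hs 7 (by decide)
  have v8 := Hs 8 (by decide)
  rw [onet_0, L0] at v0
  rw [onet_1, L1] at v1
  rw [onet_2, L2] at v2
  rw [onet_3, L3] at v3
  rw [onet_4, L4] at v4
  rw [onet_5, L5] at v5
  rw [onet_6, L6] at v6
  rw [onet_7, L7] at v7
  rw [onet_8, L8] at v8
  -- block legs
  have l0 : onet z (e9 0) + leg (e9 0) = 0 := by
    change onet z 9 + leg 9 = 0; rw [onet_9, hleg]; rfl
  have l1 : onet z (e9 1) + leg (e9 1) = 0 := by
    change onet z 10 + leg 10 = 0; rw [onet_10, hleg]; rfl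
  have l2 : onet z (e9 2) + leg (e9 2) = 0 := by
    change onet z 11 + leg 11 = 0; rw [onet_11, hleg]; rfl
  have l3 : onet z (e9 3) + leg (e9 3) = -z 10 - z 26 := by
    change onet z 12 + leg 12 = _; rw [onet_12, hleg]; exact add_zero _
  have l4 : onet z (e9 4) + leg (e9 4) = -z 14 - z 20 := by
    change onet z 13 + leg 13 = _; rw [onet_13, hleg]; exact add_zero _
  have l5 : onet z (e9 5) + leg (e9 5) = -z 15 - z 21 := by
    change onet z 14 + leg 14 = _; rw [onet_14, hleg]; exact add_zero _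
  have l6 : onet z (e9 6) + leg (e9 6) = -z 16 - z 22 := by
    change onet z 15 + leg 15 = _; rw [onet_15, hleg]; exact add_zero _
  have l7 : onet z (e9 7) + leg (e9 7) = -z 17 - z 23 := by
    change onet z 16 + leg 16 = _; rw [onet_16, hleg]; exact add_zero _
  have r0 : onet z (e17 0) + leg (e17 0) = 0 := by
    change onet z 17 + leg 17 = 0; rw [onet_17, hleg]; rfl
  have r1 : onet z (e17 1) + leg (e17 1) = 0 := by
    change onet z 18 + leg 18 = 0; rw [onet_18, hleg]; rfl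
  have r2 : onet z (e17 2) + leg (e17 2) = 0 := by
    change onet z 19 + leg 19 = 0; rw [onet_19, hleg]; rfl
  have r3 : onet z (e17 3) + leg (e17 3) = -z 8 + 1 := by
    change onet z 20 + leg 20 = _; rw [onet_20, hleg]; rfl
  have r4 : onet z (e17 4) + leg (e17 4) = -z 37 - z 42 := by
    change onet z 21 + leg 21 = _; rw [onet_21, hleg]; exact add_zero _
  have r5 : onet z (e17 5) + leg (e17 5) = -z 38 - z 43 := by
    change onet z 22 + leg 22 = _; rw [onet_22, hleg]; exact add_zero _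
  have r6 : onet z (e17 6) + leg (e17 6) = -z 39 - z 44 := by
    change onet z 23 + leg 23 = _; rw [onet_23, hleg]; exact add_zero _
  have r7 : onet z (e17 7) + leg (e17 7) = -z 40 - z 45 := by
    change onet z 24 + leg 24 = _; rw [onet_24, hleg]; exact add_zero _
  have S1 := block_sum x (fun j => onet z (e9 j) + leg (e9 j)) H1
  have S2 := block_sum y (fun j => onet z (e17 j) + leg (e17 j)) H2
  rw [l0, l1, l2, l3, l4, l5, l6, l7] at S1
  rw [r0, r1, r2, r3, r4, r5, r6, r7] at S2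
  have N1 : ¬ (z 10 + z 26 = 0 ∧ z 14 + z 20 = 0 ∧ z 15 + z 21 = 0 ∧ z 16 + z 22 = 0 ∧
      z 17 + z 23 = 0) := by
    rintro ⟨a, b, c, d, e⟩
    refine block_ne x hx (fun j => ?_)
    have hj := H1 j
    have h0 : onet z (e9 j) + leg (e9 j) = 0 := by
      fin_cases j
      · exact l0
      · exact l1
      · exact l2
      · exact l3.trans (by omega)
      · exact l4.trans (by omega)
      · exact l5.trans (by omega)
      · exact l6.trans (by omega)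
      · exact l7.trans (by omega)
    rwa [h0, add_zero] at hj
  have N2 : ¬ (z 8 = 1 ∧ z 37 + z 42 = 0 ∧ z 38 + z 43 = 0 ∧ z 39 + z 44 = 0 ∧
      z 40 + z 45 = 0) := by
    rintro ⟨a, b, c, d, e⟩
    refine block_ne y hy (fun j => ?_)
    have hj := H2 j
    have h0 : onet z (e17 j) + leg (e17 j) = 0 := by
      fin_cases j
      · exact r0
      · exact r1
      · exact r2
      · exact r3.trans (by omega)
      · exact r4.trans (by omega)
      · exact r5.trans (by omega)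
      · exact r6.trans (by omega)
      · exact r7.trans (by omega)
    rwa [h0, add_zero] at hj
  clear H1 H2 Hs l0 l1 l2 l3 l4 l5 l6 l7 r0 r1 r2 r3 r4 r5 r6 r7 hx hy hleg L0 L1 L2 L3 L4 L5 L6 L7 L8
  -- the five edges at vertex 1
  have z9 := hz 9
  have z10 := hz 10
  have z11 := hz 11
  have z12 := hz 12
  have z13 := hz 13
  have E10 : z 10 = z 9 := by clear * - v1 z9 z10 z11 z12 z13; omega
  have E11 : z 11 = z 9 := by clear * - v1 z9 z10 z11 z12 z13; omega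
  have E12 : z 12 = z 9 := by clear * - v1 z9 z10 z11 z12 z13; omega
  have E13 : z 13 = z 9 := by clear * - v1 z9 z10 z11 z12 z13; omega
  rw [E10] at S1 N1
  rw [E11, E12] at v3
  rw [E13] at v4
  clear v1 z10 z11 z12 z13 E10 E11 E12 E13
  obtain ⟨e, he⟩ := b1 _ z9
  obtain ⟨b, hb⟩ := b1 _ (hz 26)
  obtain ⟨u, hu⟩ := b1 _ (hz 18)
  obtain ⟨w, hw⟩ := b1 _ (hz 19)
  obtain ⟨P, hP⟩ := b4 _ _ _ _ (hz 14) (hz 15) (hz 16) (hz 17)
  obtain ⟨Q, hQ⟩ := b4 _ _ _ _ (hz 20) (hz 21) (hz 22) (hz 23)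
  obtain ⟨R, hR⟩ := b2 _ _ (hz 24) (hz 25)
  obtain ⟨A, hA⟩ := b2 _ _ (hz 0) (hz 1)
  obtain ⟨Bt, hBt⟩ := b3 _ _ _ (hz 2) (hz 3) (hz 4)
  obtain ⟨D, hD⟩ := b2 _ _ (hz 27) (hz 28)
  obtain ⟨c, hc⟩ := b1 _ (hz 5)
  obtain ⟨S, hS⟩ := b2 _ _ (hz 6) (hz 7)
  obtain ⟨k, hk⟩ := b1 _ (hz 8)
  obtain ⟨M, hM⟩ := b5 _ _ _ _ _ (hz 29) (hz 30) (hz 31) (hz 32) (hz 33)
  obtain ⟨U, hU⟩ := b2 _ _ (hz 34) (hz 35)
  obtain ⟨g, hg⟩ := b1 _ (hz 36)
  obtain ⟨P', hP'⟩ := b4 _ _ _ _ (hz 37) (hz 38) (hz 39) (hz 40)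
  obtain ⟨Q', hQ'⟩ := b4 _ _ _ _ (hz 42) (hz 43) (hz 44) (hz 45)
  obtain ⟨r, hr⟩ := b1 _ (hz 41)
  have M1 : ¬ ((e : ℕ) + b = 1 ∧ (P : ℕ) = 4 ∧ (Q : ℕ) = 0) := by
    rintro ⟨h1, h2, h3⟩
    obtain ⟨p1, p2, p3, p4⟩ := all_pos _ _ _ _ (hz 14) (hz 15) (hz 16) (hz 17)
      (by clear * - hP h2; omega)
    obtain ⟨q1, q2, q3, q4⟩ := all_neg _ _ _ _ (hz 20) (hz 21) (hz 22) (hz 23)
      (by clear * - hQ h3; omega)
    exact N1 ⟨by clear * - he hb h1; omega, by rw [p1, q1]; norm_num, by rw [p2, q2]; norm_num,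
      by rw [p3, q3]; norm_num, by rw [p4, q4]; norm_num⟩
  have M2 : ¬ ((e : ℕ) + b = 1 ∧ (P : ℕ) = 0 ∧ (Q : ℕ) = 4) := by
    rintro ⟨h1, h2, h3⟩
    obtain ⟨p1, p2, p3, p4⟩ := all_neg _ _ _ _ (hz 14) (hz 15) (hz 16) (hz 17)
      (by clear * - hP h2; omega)
    obtain ⟨q1, q2, q3, q4⟩ := all_pos _ _ _ _ (hz 20) (hz 21) (hz 22) (hz 23)
      (by clear * - hQ h3; omega)
    exact N1 ⟨by clear * - he hb h1; omega, by rw [p1, q1]; norm_num, by rw [p2, q2]; norm_num,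
      by rw [p3, q3]; norm_num, by rw [p4, q4]; norm_num⟩
  have M3 : ¬ ((k : ℕ) = 1 ∧ (P' : ℕ) = 4 ∧ (Q' : ℕ) = 0) := by
    rintro ⟨h1, h2, h3⟩
    obtain ⟨p1, p2, p3, p4⟩ := all_pos _ _ _ _ (hz 37) (hz 38) (hz 39) (hz 40)
      (by clear * - hP' h2; omega)
    obtain ⟨q1, q2, q3, q4⟩ := all_neg _ _ _ _ (hz 42) (hz 43) (hz 44) (hz 45)
      (by clear * - hQ' h3; omega)
    exact N2 ⟨by clear * - hk h1; omega, by rw [p1, q1]; norm_num, by rw [p2, q2]; norm_num,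
      by rw [p3, q3]; norm_num, by rw [p4, q4]; norm_num⟩
  have M4 : ¬ ((k : ℕ) = 1 ∧ (P' : ℕ) = 0 ∧ (Q' : ℕ) = 4) := by
    rintro ⟨h1, h2, h3⟩
    obtain ⟨p1, p2, p3, p4⟩ := all_neg _ _ _ _ (hz 37) (hz 38) (hz 39) (hz 40)
      (by clear * - hP' h2; omega)
    obtain ⟨q1, q2, q3, q4⟩ := all_pos _ _ _ _ (hz 42) (hz 43) (hz 44) (hz 45)
      (by clear * - hQ' h3; omega)
    exact N2 ⟨by clear * - hk h1; omega, by rw [p1, q1]; norm_num, by rw [p2, q2]; norm_num,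
      by rw [p3, q3]; norm_num, by rw [p4, q4]; norm_num⟩
  clear N1 N2
  have T1 := left_fin e b u w P Q (by clear * - S1 he hb hP hQ; omega) M1 M2
    R (by clear * - v3 he hu hQ hR; omega) A (by clear * - v2 he hP hu hw hA; omega)
    Bt D (by clear * - v4 he hb hR hBt hD; omega)
  exact right_fin A Bt c S k (by clear * - v0 hA hBt hc hS hk; omega)
    M U (by clear * - v5 hc hM hU; omega) g (by clear * - v6 hS hM hg; omega)
    P' Q' (by clear * - S2 hk hP' hQ'; omega) M3 M4 w D r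
    (by clear * - v7 hw hD hP' hr; omega) (by clear * - v8 hU hg hr hQ'; omega) T1

end Pool.Agent.TH734.JG
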