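import Pool.Agent.TH734.JG.Flow

set_option autoImplicit false
set_option linter.unusedSectionVars false

namespace Pool.Agent.TH734.JG

open Finset

variable {V E : Type} [Fintype V] [DecidableEq V] [Fintype E] [DecidableEq E]

/-- A loopless 9-regular multigraph with a circular 5/2-flow has an orientation (recorded by signs
`b e = ±1`) whose net out-degree is `±5` at each vertex. -/
theorem exists_orient (s t : E → V) (hl : ∀ e, s e ≠ t e)
    (hdeg : ∀ v, (univ.filter (fun e => s e = v)).card
      + (univ.filter (fun e => t e = v)).card = 9)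
    (f : E → ℝ) (hf : ∀ e, 1 ≤ |f e| ∧ |f e| ≤ 3 / 2)
    (hc : ∀ v : V, (∑ e ∈ univ.filter (fun e => t e = v), f e)
                 = ∑ e ∈ univ.filter (fun e => s e = v), f e) :
    ∃ b : E → ℤ, (∀ e, b e = 1 ∨ b e = -1) ∧
      ∀ v, ((∑ e ∈ univ.filter (fun e => s e = v), b e)
        - ∑ e ∈ univ.filter (fun e => t e = v), b e) = 5 ∨
        ((∑ e ∈ univ.filter (fun e => s e = v), b e)
        - ∑ e ∈ univ.filter (fun e => t e = v), b e) = -5 := by
  classical
  have hcut := cut_ineq f hf s t hc
  -- the signs
  have hsig : ∀ v, sig s t f v = 1 ∨ sig s t f v = -1 := by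
    intro v
    obtain ⟨k, hk⟩ := sig_odd s t f v (hdeg v)
    obtain ⟨h1, h2⟩ := hcut {v}
    have h3 : ∑ e, |ind s t {v} e| ≤ 9 := by
      have h4 := sum_deg s t {v} hdeg
      rw [Finset.card_singleton] at h4
      have h5 : ∑ e, |ind s t {v} e|
          ≤ ∑ e, ((if s e ∈ ({v} : Finset V) then 1 else 0)
            + (if t e ∈ ({v} : Finset V) then 1 else 0) : ℤ) := by
        refine Finset.sum_le_sum (fun e _ => ?_)
        unfold ind
        split_ifs <;> simp
      rw [← h4] at h5
      simpa using h5
    rw [Finset.sum_singleton] at h1 h2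
    omega
  have htot : ∑ v, sig s t f v = 0 := by
    obtain ⟨h1, h2⟩ := hcut univ
    have h3 : ∑ e, |ind s t univ e| = 0 := by
      refine Finset.sum_eq_zero (fun e _ => ?_)
      simp [ind]
    omega
  let m : V → ℕ := fun v => if sig s t f v = 1 then 7 else 2
  have hm : ∀ v, 2 * (m v : ℤ) = 9 + 5 * sig s t f v := by
    intro v
    rcases hsig v with h | h <;> simp [m, h]
  let slots : E → Finset (Σ _ : V, ℕ) := fun e =>
    ({s e, t e} : Finset V).sigma (fun v => range (m v))
  have hall : ∀ F : Finset E, F.card ≤ (F.biUnion slots).card := by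
    intro F
    have hS : F.biUnion slots
        = (F.image s ∪ F.image t).sigma (fun v => range (m v)) := by
      ext ⟨v, k⟩
      simp only [slots, mem_biUnion, mem_sigma, mem_insert, mem_singleton, mem_range, mem_union,
        mem_image]
      constructor
      · rintro ⟨e, he, h1, h2⟩
        refine ⟨?_, h2⟩
        rcases h1 with h1 | h1
        · exact Or.inl ⟨e, he, h1.symm⟩
        · exact Or.inr ⟨e, he, h1.symm⟩
      · rintro ⟨h1, h2⟩
        rcases h1 with ⟨e, he, h1⟩ | ⟨e, he, h1⟩
        · exact ⟨e, he, Or.inl h1.symm, h2⟩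
        · exact ⟨e, he, Or.inr h1.symm, h2⟩
    rw [hS, Finset.card_sigma]
    simp only [Finset.card_range]
    set S := F.image s ∪ F.image t with hSdef
    have h1 : (2 : ℤ) * ((∑ v ∈ S, m v : ℕ) : ℤ) = 9 * S.card + 5 * ∑ v ∈ S, sig s t f v := by
      push_cast
      rw [Finset.mul_sum, Finset.sum_congr rfl (fun v _ => hm v), Finset.sum_add_distrib,
        Finset.sum_const, nsmul_eq_mul, ← Finset.mul_sum]
      ring
    have h2 := sum_deg s t S hdeg
    have h3 := (hcut S).2
    have h4 : (2 : ℤ) * F.card ≤ 9 * S.card - ∑ e, |ind s t S e| := by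
      rw [h2, ← Finset.sum_sub_distrib]
      have h5 : ∑ e ∈ F, (2 : ℤ) ≤ ∑ e ∈ F, (((if s e ∈ S then 1 else 0)
          + (if t e ∈ S then 1 else 0) : ℤ) - |ind s t S e|) := by
        refine Finset.sum_le_sum (fun e he => ?_)
        have hs : s e ∈ S := by
          rw [hSdef]; exact mem_union_left _ (mem_image_of_mem s he)
        have ht : t e ∈ S := by
          rw [hSdef]; exact mem_union_right _ (mem_image_of_mem t he)
        simp [ind, hs, ht]
      have h6 : ∑ e ∈ F, (((if s e ∈ S then 1 else 0)
          + (if t e ∈ S then 1 else 0) : ℤ) - |ind s t S e|)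
          ≤ ∑ e, (((if s e ∈ S then 1 else 0)
          + (if t e ∈ S then 1 else 0) : ℤ) - |ind s t S e|) := by
        refine Finset.sum_le_sum_of_subset_of_nonneg (subset_univ F) (fun e _ _ => ?_)
        unfold ind
        by_cases a : s e ∈ S <;> by_cases b : t e ∈ S <;> simp [a, b]
      rw [Finset.sum_const, nsmul_eq_mul] at h5
      linarith
    have h7 : (2 : ℤ) * F.card ≤ 2 * ((∑ v ∈ S, m v : ℕ) : ℤ) := by linarith
    have h8 : (F.card : ℤ) ≤ ((∑ v ∈ S, m v : ℕ) : ℤ) := by linarith
    exact_mod_cast h8
  obtain ⟨slot, hinj, hslot⟩ := (Finset.all_card_le_biUnion_card_iff_exists_injective slots).1 hall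
  let tail : E → V := fun e => (slot e).1
  have htail : ∀ e, tail e = s e ∨ tail e = t e := by
    intro e
    have := hslot e
    simp only [slots, mem_sigma, mem_insert, mem_singleton] at this
    exact this.1
  have hfib_le : ∀ v, (univ.filter (fun e => tail e = v)).card ≤ m v := by
    intro v
    have h1 : (univ.filter (fun e => tail e = v)).card
        ≤ (range (m v)).card := by
      refine Finset.card_le_card_of_injOn (fun e => (slot e).2) ?_ ?_
      · intro e he
        have he' : tail e = v := by simpa using he
        have := hslot e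
        simp only [slots, mem_sigma, mem_range] at this
        have h2 := this.2
        simp only [coe_range, Set.mem_Iio]
        rw [← he']
        exact h2
      · intro e he e' he' hee
        have h1 : tail e = v := by simpa using he
        have h2 : tail e' = v := by simpa using he'
        apply hinj
        have hh : (slot e).1 = (slot e').1 := by
          change tail e = tail e'
          rw [h1, h2]
        exact Sigma.ext hh (heq_of_eq hee)
    simpa using h1
  have hsumfib : ∑ v, (univ.filter (fun e => tail e = v)).card = Fintype.card E := by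
    rw [← Finset.card_univ]
    exact (Finset.card_eq_sum_card_fiberwise (fun e _ => mem_univ (tail e))).symm
  have hsumm : ∑ v, m v = Fintype.card E := by
    have h1 : (2 : ℤ) * ((∑ v, m v : ℕ) : ℤ) = 9 * (univ : Finset V).card + 5 * ∑ v, sig s t f v := by
      push_cast
      rw [Finset.mul_sum, Finset.sum_congr rfl (fun v _ => hm v), Finset.sum_add_distrib,
        Finset.sum_const, nsmul_eq_mul, ← Finset.mul_sum]
      simp
      ring
    have h2 := sum_deg s t univ hdeg
    simp only [mem_univ, if_true, Finset.sum_const, nsmul_eq_mul, Finset.card_univ] at h2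
    rw [htot, Finset.card_univ, h2] at h1
    have h3 : (((∑ v, m v : ℕ) : ℤ)) = (Fintype.card E : ℤ) := by linarith
    exact_mod_cast h3
  have hfib : ∀ v, (univ.filter (fun e => tail e = v)).card = m v := by
    have h1 : ∀ v ∈ (univ : Finset V), (univ.filter (fun e => tail e = v)).card ≤ m v :=
      fun v _ => hfib_le v
    have h2 := (Finset.sum_eq_sum_iff_of_le h1).1 (by rw [hsumfib, hsumm])
    exact fun v => h2 v (mem_univ v)
  refine ⟨fun e => if tail e = s e then 1 else -1, fun e => by by_cases h : tail e = s e <;> simp [h],
    fun v => ?_⟩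
  have hnet : ((∑ e ∈ univ.filter (fun e => s e = v), (if tail e = s e then (1:ℤ) else -1))
        - ∑ e ∈ univ.filter (fun e => t e = v), (if tail e = s e then (1:ℤ) else -1))
        = 2 * (m v : ℤ) - 9 := by
    rw [Finset.sum_filter, Finset.sum_filter, ← Finset.sum_sub_distrib]
    have h1 : ∀ e ∈ (univ : Finset E),
        ((if s e = v then (if tail e = s e then (1:ℤ) else -1) else 0)
          - (if t e = v then (if tail e = s e then (1:ℤ) else -1) else 0))
        = 2 * (if tail e = v then 1 else 0) - ((if s e = v then 1 else 0)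
          + (if t e = v then 1 else 0)) := by
      intro e _
      have hne := hl e
      rcases htail e with h | h
      · rw [h]
        by_cases h1 : s e = v
        · have h2 : t e ≠ v := fun h3 => hne (h1.trans h3.symm)
          simp [h1, h2]
        · by_cases h2 : t e = v
          · simp [h1, h2]
          · simp [h1, h2]
      · rw [h]
        by_cases h1 : s e = v
        · have h2 : t e ≠ v := fun h3 => hne (h1.trans h3.symm)
          have h4 : ¬ (t e = s e) := fun h => hne h.symm
          simp [h1, h2]
        · by_cases h2 : t e = v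
          · have h4 : ¬ (v = s e) := fun h => h1 h.symm
            simp [h1, h2, h4]
          · simp [h1, h2]
    rw [Finset.sum_congr rfl h1, Finset.sum_sub_distrib, ← Finset.mul_sum, Finset.sum_boole,
      Finset.sum_add_distrib, Finset.sum_boole, Finset.sum_boole, hfib v]
    have := hdeg v
    have h2 : ((univ.filter (fun e => s e = v)).card : ℤ)
      + ((univ.filter (fun e => t e = v)).card : ℤ) = 9 := by exact_mod_cast this
    linarith
  rw [hnet, hm v]
  rcases hsig v with h | h <;> rw [h] <;> simp

end Pool.Agent.TH734.JG
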