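import Pool.Agent.TH734.JG.Gadget
import Pool.Agent.TH734.JG.Hall

set_option autoImplicit false
set_option linter.unusedSectionVars false

namespace Pool.Agent.TH734.JG

open Finset

/-- vertices: nine copies of the 25-vertex gadget, and a centre -/
abbrev VV := Option (Fin 9 × Fin 25)
/-- edges -/
abbrev EE := Fin 9 × (Fin 31 ⊕ (Fin 31 ⊕ (Fin 46 ⊕ (Fin 4 ⊕ Unit))))

/-- targets of the four parallel legs -/
def oc : Fin 4 → Fin 25 := ![20, 6, 7, 5]

/-- tails -/
def src : EE → VV
  | (c, .inl i) => some (c, e9 (bs i))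
  | (c, .inr (.inl i)) => some (c, e17 (bs i))
  | (c, .inr (.inr (.inl i))) => some (c, os i)
  | (c, .inr (.inr (.inr (.inl _)))) => some (c, 1)
  | (c, .inr (.inr (.inr (.inr _)))) => some (c, 8)

/-- heads -/
def tgt : EE → VV
  | (c, .inl i) => some (c, e9 (bt i))
  | (c, .inr (.inl i)) => some (c, e17 (bt i))
  | (c, .inr (.inr (.inl i))) => some (c, ot i)
  | (c, .inr (.inr (.inr (.inl k)))) => some (c + 1, oc k)
  | (_, .inr (.inr (.inr (.inr _)))) => none

variable {R : Type} [AddCommMonoid R]

theorem collapse {ι : Type} [Fintype ι] (w : Fin 9 → ι → VV) (u : ι → Fin 25)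
    (G : Fin 9 → ι → R) (c : Fin 9) (j : Fin 25) (hw : ∀ c' i, w c' i = some (c', u i)) :
    ∑ c' : Fin 9, ∑ i : ι, (if w c' i = some (c, j) then G c' i else 0)
      = ∑ i : ι, if u i = j then G c i else 0 := by
  rw [Finset.sum_comm]
  refine Finset.sum_congr rfl (fun i _ => ?_)
  have : ∀ c' ∈ (univ : Finset (Fin 9)),
      (if w c' i = some (c, j) then G c' i else 0)
      = if c' = c then (if u i = j then G c i else 0) else 0 := by
    intro c' _
    simp only [hw]
    by_cases h1 : c' = c
    · subst h1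
      by_cases h2 : u i = j <;> simp [h2]
    · simp [h1]
  rw [Finset.sum_congr rfl this, Finset.sum_ite_eq']
  simp

theorem collapse' {ι : Type} [Fintype ι] (w : Fin 9 → ι → VV) (u : ι → Fin 25)
    (G : Fin 9 → ι → R) (c : Fin 9) (j : Fin 25) (hw : ∀ c' i, w c' i = some (c' + 1, u i)) :
    ∑ c' : Fin 9, ∑ i : ι, (if w c' i = some (c, j) then G c' i else 0)
      = ∑ i : ι, if u i = j then G (c - 1) i else 0 := by
  rw [Finset.sum_comm]
  refine Finset.sum_congr rfl (fun i _ => ?_)
  have : ∀ c' ∈ (univ : Finset (Fin 9)),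
      (if w c' i = some (c, j) then G c' i else 0)
      = if c' = c - 1 then (if u i = j then G (c - 1) i else 0) else 0 := by
    intro c' _
    simp only [hw]
    by_cases h1 : c' = c - 1
    · subst h1
      by_cases h2 : u i = j <;> simp [h2]
    · have h3 : ¬ (c' + 1 = c) := fun h => h1 (by rw [← h]; simp)
      simp [h1, h3]
  rw [Finset.sum_congr rfl this, Finset.sum_ite_eq']
  simp

theorem sum_src (F : EE → R) (c : Fin 9) (j : Fin 25) :
    ∑ e ∈ univ.filter (fun e => src e = some (c, j)), F e
      = (∑ i : Fin 31, if e9 (bs i) = j then F (c, .inl i) else 0)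
      + ((∑ i : Fin 31, if e17 (bs i) = j then F (c, .inr (.inl i)) else 0)
      + ((∑ i : Fin 46, if os i = j then F (c, .inr (.inr (.inl i))) else 0)
      + ((∑ k : Fin 4, if (1 : Fin 25) = j then F (c, .inr (.inr (.inr (.inl k)))) else 0)
      + ∑ k : Unit, if (8 : Fin 25) = j then F (c, .inr (.inr (.inr (.inr k)))) else 0))) := by
  rw [Finset.sum_filter, Fintype.sum_prod_type]
  simp only [Fintype.sum_sum_type, Finset.sum_add_distrib]
  rw [collapse (fun c' i => src (c', .inl i)) (fun i => e9 (bs i)) (fun c' i => F (c', .inl i))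
      c j (fun _ _ => rfl),
    collapse (fun c' i => src (c', .inr (.inl i))) (fun i => e17 (bs i))
      (fun c' i => F (c', .inr (.inl i))) c j (fun _ _ => rfl),
    collapse (fun c' i => src (c', .inr (.inr (.inl i)))) os
      (fun c' i => F (c', .inr (.inr (.inl i)))) c j (fun _ _ => rfl),
    collapse (fun c' i => src (c', .inr (.inr (.inr (.inl i))))) (fun _ => (1 : Fin 25))
      (fun c' i => F (c', .inr (.inr (.inr (.inl i))))) c j (fun _ _ => rfl),
    collapse (fun c' i => src (c', .inr (.inr (.inr (.inr i))))) (fun _ => (8 : Fin 25))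
      (fun c' i => F (c', .inr (.inr (.inr (.inr i))))) c j (fun _ _ => rfl)]

theorem sum_tgt (F : EE → R) (c : Fin 9) (j : Fin 25) :
    ∑ e ∈ univ.filter (fun e => tgt e = some (c, j)), F e
      = (∑ i : Fin 31, if e9 (bt i) = j then F (c, .inl i) else 0)
      + ((∑ i : Fin 31, if e17 (bt i) = j then F (c, .inr (.inl i)) else 0)
      + ((∑ i : Fin 46, if ot i = j then F (c, .inr (.inr (.inl i))) else 0)
      + (∑ k : Fin 4, if oc k = j then F (c - 1, .inr (.inr (.inr (.inl k)))) else 0))) := by
  rw [Finset.sum_filter, Fintype.sum_prod_type]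
  simp only [Fintype.sum_sum_type, Finset.sum_add_distrib]
  rw [collapse (fun c' i => tgt (c', .inl i)) (fun i => e9 (bt i)) (fun c' i => F (c', .inl i))
      c j (fun _ _ => rfl),
    collapse (fun c' i => tgt (c', .inr (.inl i))) (fun i => e17 (bt i))
      (fun c' i => F (c', .inr (.inl i))) c j (fun _ _ => rfl),
    collapse (fun c' i => tgt (c', .inr (.inr (.inl i)))) ot
      (fun c' i => F (c', .inr (.inr (.inl i)))) c j (fun _ _ => rfl),
    collapse' (fun c' i => tgt (c', .inr (.inr (.inr (.inl i))))) oc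
      (fun c' i => F (c', .inr (.inr (.inr (.inl i))))) c j (fun _ _ => rfl)]
  have h0 : ∑ c' : Fin 9, ∑ k : Unit, (if tgt (c', .inr (.inr (.inr (.inr k)))) = some (c, j)
      then F (c', .inr (.inr (.inr (.inr k)))) else 0) = 0 := by
    refine Finset.sum_eq_zero (fun c' _ => Finset.sum_eq_zero (fun k _ => ?_))
    rw [if_neg]
    intro h
    exact absurd h (by simp [tgt])
  rw [h0, add_zero]

theorem sum_src_none (F : EE → R) :
    ∑ e ∈ univ.filter (fun e => src e = none), F e = 0 := by
  rw [Finset.sum_filter, Fintype.sum_prod_type]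
  simp [Fintype.sum_sum_type, src]

theorem sum_tgt_none (F : EE → R) :
    ∑ e ∈ univ.filter (fun e => tgt e = none), F e
      = ∑ c : Fin 9, F (c, .inr (.inr (.inr (.inr ())))) := by
  rw [Finset.sum_filter, Fintype.sum_prod_type]
  simp [Fintype.sum_sum_type, tgt]

theorem loopless : ∀ e, src e ≠ tgt e := by
  have h1 : ∀ i, bs i ≠ bt i := by decide
  have h2 : ∀ i, os i ≠ ot i := by decide
  rintro ⟨c, i | i | i | i | i⟩ h
  · simp only [src, tgt, Option.some.injEq, Prod.mk.injEq, true_and] at h
    have h3 := congrArg Fin.val h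
    simp only [e9] at h3
    exact h1 i (Fin.ext (by omega))
  · simp only [src, tgt, Option.some.injEq, Prod.mk.injEq, true_and] at h
    have h3 := congrArg Fin.val h
    simp only [e17] at h3
    exact h1 i (Fin.ext (by omega))
  · simp only [src, tgt, Option.some.injEq, Prod.mk.injEq, true_and] at h
    exact h2 i h
  · simp only [src, tgt, Option.some.injEq, Prod.mk.injEq] at h
    have h4 : ∀ c : Fin 9, c ≠ c + 1 := by decide
    exact h4 c h.1
  · simp [src, tgt] at h

theorem degree9 : ∀ v, (univ.filter (fun e => src e = v)).card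
      + (univ.filter (fun e => tgt e = v)).card = 9 := by
  have hj : ∀ j : Fin 25, ((∑ i : Fin 31, if e9 (bs i) = j then 1 else 0)
      + ((∑ i : Fin 31, if e17 (bs i) = j then 1 else 0)
      + ((∑ i : Fin 46, if os i = j then 1 else 0)
      + ((∑ k : Fin 4, if (1 : Fin 25) = j then 1 else 0)
      + ∑ k : Unit, if (8 : Fin 25) = j then 1 else 0))))
      + ((∑ i : Fin 31, if e9 (bt i) = j then 1 else 0)
      + ((∑ i : Fin 31, if e17 (bt i) = j then 1 else 0)
      + ((∑ i : Fin 46, if ot i = j then 1 else 0)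
      + (∑ k : Fin 4, if oc k = j then 1 else 0)))) = 9 := by
    decide +kernel
  intro v
  rw [Finset.card_eq_sum_ones, Finset.card_eq_sum_ones]
  rcases v with _ | ⟨c, j⟩
  · rw [sum_src_none, sum_tgt_none]; simp
  · rw [sum_src, sum_tgt]
    exact hj j

end Pool.Agent.TH734.JG
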