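import Mathlib

set_option autoImplicit false

namespace Pool.Agent.TH734.JG

open Finset

/-- tails of the 31 edges of the block `K₈` plus a triangle on `{0,1,2}` -/
def bs : Fin 31 → Fin 8 := ![0, 0, 0, 0, 0, 0, 0, 1, 1, 1, 1, 1, 1, 2, 2, 2, 2, 2, 3, 3, 3, 3, 4, 4, 4, 5, 5, 6, 0, 0, 1]
/-- heads of the 31 edges of the block -/
def bt : Fin 31 → Fin 8 := ![1, 2, 3, 4, 5, 6, 7, 2, 3, 4, 5, 6, 7, 3, 4, 5, 6, 7, 4, 5, 6, 7, 5, 6, 7, 6, 7, 7, 1, 2, 2]
/-- tails of the 46 other edges inside a copy -/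
def os : Fin 46 → Fin 25 := ![0, 0, 0, 0, 0, 0, 0, 0, 0, 1, 1, 1, 1, 1, 2, 2, 2, 2, 2, 2, 3, 3, 3, 3, 3, 3, 4, 4, 4, 5, 5, 5, 5, 5, 5, 5, 6, 7, 7, 7, 7, 7, 8, 8, 8, 8]
/-- heads of the 46 other edges inside a copy -/
def ot : Fin 46 → Fin 25 := ![2, 2, 4, 4, 4, 5, 6, 6, 20, 2, 12, 3, 3, 4, 13, 14, 15, 16, 3, 7, 13, 14, 15, 16, 4, 4, 12, 7, 7, 6, 6, 6, 6, 6, 8, 8, 8, 21, 22, 23, 24, 8, 21, 22, 23, 24]


/-- net contribution of block edges at block vertex `j` -/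
def bnet (x : Fin 31 → ℤ) (j : Fin 8) : ℤ :=
  ∑ i, x i * ((if bs i = j then 1 else 0) - (if bt i = j then 1 else 0))

/-- net contribution of the other edges at vertex `j` -/
def onet (z : Fin 46 → ℤ) (j : Fin 25) : ℤ :=
  ∑ i, z i * ((if os i = j then 1 else 0) - (if ot i = j then 1 else 0))

theorem onet_0 (z : Fin 46 → ℤ) : onet z 0 = z 0 + z 1 + z 2 + z 3 + z 4 + z 5 + z 6 + z 7 + z 8 := by
  simp [onet, os, ot, Fin.sum_univ_succ]
  try ring

theorem onet_1 (z : Fin 46 → ℤ) : onet z 1 = z 9 + z 10 + z 11 + z 12 + z 13 := by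
  simp [onet, os, ot, Fin.sum_univ_succ]
  try ring

theorem onet_2 (z : Fin 46 → ℤ) : onet z 2 = -z 0 - z 1 - z 9 + z 14 + z 15 + z 16 + z 17 + z 18 + z 19 := by
  simp [onet, os, ot, Fin.sum_univ_succ]
  try ring

theorem onet_3 (z : Fin 46 → ℤ) : onet z 3 = -z 11 - z 12 - z 18 + z 20 + z 21 + z 22 + z 23 + z 24 + z 25 := by
  simp [onet, os, ot, Fin.sum_univ_succ]
  try ring

theorem onet_4 (z : Fin 46 → ℤ) : onet z 4 = -z 2 - z 3 - z 4 - z 13 - z 24 - z 25 + z 26 + z 27 + z 28 := by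
  simp [onet, os, ot, Fin.sum_univ_succ]
  try ring

theorem onet_5 (z : Fin 46 → ℤ) : onet z 5 = -z 5 + z 29 + z 30 + z 31 + z 32 + z 33 + z 34 + z 35 := by
  simp [onet, os, ot, Fin.sum_univ_succ]
  try ring

theorem onet_6 (z : Fin 46 → ℤ) : onet z 6 = -z 6 - z 7 - z 29 - z 30 - z 31 - z 32 - z 33 + z 36 := by
  simp [onet, os, ot, Fin.sum_univ_succ]
  try ring

theorem onet_7 (z : Fin 46 → ℤ) : onet z 7 = -z 19 - z 27 - z 28 + z 37 + z 38 + z 39 + z 40 + z 41 := by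
  simp [onet, os, ot, Fin.sum_univ_succ]
  try ring

theorem onet_8 (z : Fin 46 → ℤ) : onet z 8 = -z 34 - z 35 - z 36 - z 41 + z 42 + z 43 + z 44 + z 45 := by
  simp [onet, os, ot, Fin.sum_univ_succ]
  try ring

theorem onet_9 (z : Fin 46 → ℤ) : onet z 9 = 0 := by
  simp [onet, os, ot, Fin.sum_univ_succ]
  try ring

theorem onet_10 (z : Fin 46 → ℤ) : onet z 10 = 0 := by
  simp [onet, os, ot, Fin.sum_univ_succ]
  try ring

theorem onet_11 (z : Fin 46 → ℤ) : onet z 11 = 0 := by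
  simp [onet, os, ot, Fin.sum_univ_succ]
  try ring

theorem onet_12 (z : Fin 46 → ℤ) : onet z 12 = -z 10 - z 26 := by
  simp [onet, os, ot, Fin.sum_univ_succ]
  try ring

theorem onet_13 (z : Fin 46 → ℤ) : onet z 13 = -z 14 - z 20 := by
  simp [onet, os, ot, Fin.sum_univ_succ]
  try ring

theorem onet_14 (z : Fin 46 → ℤ) : onet z 14 = -z 15 - z 21 := by
  simp [onet, os, ot, Fin.sum_univ_succ]
  try ring

theorem onet_15 (z : Fin 46 → ℤ) : onet z 15 = -z 16 - z 22 := by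
  simp [onet, os, ot, Fin.sum_univ_succ]
  try ring

theorem onet_16 (z : Fin 46 → ℤ) : onet z 16 = -z 17 - z 23 := by
  simp [onet, os, ot, Fin.sum_univ_succ]
  try ring

theorem onet_17 (z : Fin 46 → ℤ) : onet z 17 = 0 := by
  simp [onet, os, ot, Fin.sum_univ_succ]
  try ring

theorem onet_18 (z : Fin 46 → ℤ) : onet z 18 = 0 := by
  simp [onet, os, ot, Fin.sum_univ_succ]
  try ring

theorem onet_19 (z : Fin 46 → ℤ) : onet z 19 = 0 := by
  simp [onet, os, ot, Fin.sum_univ_succ]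
  try ring

theorem onet_20 (z : Fin 46 → ℤ) : onet z 20 = -z 8 := by
  simp [onet, os, ot, Fin.sum_univ_succ]
  try ring

theorem onet_21 (z : Fin 46 → ℤ) : onet z 21 = -z 37 - z 42 := by
  simp [onet, os, ot, Fin.sum_univ_succ]
  try ring

theorem onet_22 (z : Fin 46 → ℤ) : onet z 22 = -z 38 - z 43 := by
  simp [onet, os, ot, Fin.sum_univ_succ]
  try ring

theorem onet_23 (z : Fin 46 → ℤ) : onet z 23 = -z 39 - z 44 := by
  simp [onet, os, ot, Fin.sum_univ_succ]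
  try ring

theorem onet_24 (z : Fin 46 → ℤ) : onet z 24 = -z 40 - z 45 := by
  simp [onet, os, ot, Fin.sum_univ_succ]
  try ring

end Pool.Agent.TH734.JG
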